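import Pool.Agent.H83.UE.Targets3

/-!
Row KMG of the board udb_modules (MP_75a732_an): marginals and change of variables.
-/

set_option autoImplicit false

open Polynomial MeasureTheory Filter Topology Set
open scoped OnePoint ComplexConjugate ComplexOrder Laplacian ENNReal

open Pool.Agent.H83.UE

namespace Pool.Agent.H82.UDB

namespace KMG

theorem meas_val {d : ℕ} (g : RatMap d) (n : ℕ) : Measurable (g.val n) := by
  unfold RatMap.val
  exact ((g.it n).1.continuous.measurable).div ((g.it n).2.continuous.measurable)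

theorem meas_der {d : ℕ} (g : RatMap d) (n : ℕ) : Measurable (g.der n) := by
  unfold RatMap.der
  exact measurable_deriv _

/-- the density with the square of the derivative -/
theorem meas_H {d : ℕ} (g : RatMap d) (n : ℕ) (ρ : ℂ → ℝ≥0∞) (hρ : Measurable ρ) :
    Measurable fun x => ρ x / (‖g.der n x‖ₑ * ‖g.der n x‖ₑ) :=
  hρ.div ((meas_der g n).enorm.mul (meas_der g n).enorm)

theorem nfac_TT {d : ℕ} (g : RatMap d) (n : ℕ) (ρ : ℂ → ℝ≥0∞) (z : ℂ) :
    nfac g n True True ρ z =
      (((g.it n).1 - C z * (g.it n).2).roots.map fun x =>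
        ρ x / (‖g.der n x‖ₑ * ‖g.der n x‖ₑ)).sum := by
  unfold nfac RatMap.fib
  simp only [if_true]

theorem sub_ne_zero' {D : ℕ} {P Q : ℂ[X]} (hD : 1 ≤ D) (hc : IsCoprime P Q)
    (hdeg : P.natDegree = D ∨ Q.natDegree = D) (z : ℂ) : P - C z * Q ≠ 0 := by
  intro h
  have h1 : P = C z * Q := sub_eq_zero.1 h
  have h2 : IsUnit Q := by
    obtain ⟨a, b, hab⟩ := hc
    rw [h1] at hab
    refine isUnit_of_dvd_one ⟨a * C z + b, ?_⟩
    rw [← hab]
    ring
  have h3 : Q.natDegree = 0 := Polynomial.natDegree_eq_zero_of_isUnit h2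
  have h4 : P.natDegree = 0 := by
    rw [h1]
    have := Polynomial.natDegree_C_mul_le z Q
    omega
  omega

theorem one_var (h1 : T_IT) (h2 : T_SIM) (h3 : T_ARE) {d : ℕ} (hd : 2 ≤ d) (g : RatMap d) (n : ℕ)
    (ρ K : ℂ → ℝ≥0∞) (hρ : Measurable ρ) (hK : Measurable K) :
    ∫⁻ z, nfac g n True True ρ z * K z = ∫⁻ x, ρ x * K (g.val n x) := by
  classical
  obtain ⟨i1, i2, i3, i4, _⟩ := h1 d (by omega) g n
  have hD : 1 ≤ d ^ n := Nat.one_le_pow _ _ (by omega)
  obtain ⟨E, hE⟩ := h2 (d ^ n) (g.it n).1 (g.it n).2 hD i4 i1 i2 i3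
  have hH : Measurable fun x => ρ x / (‖g.der n x‖ₑ * ‖g.der n x‖ₑ) * K (g.val n x) :=
    (meas_H g n ρ hρ).mul (hK.comp (meas_val g n))
  have a1 : ∫⁻ z, nfac g n True True ρ z * K z =
      ∫⁻ z, ∑ x ∈ ((g.it n).1 - C z * (g.it n).2).roots.toFinset,
        ρ x / (‖g.der n x‖ₑ * ‖g.der n x‖ₑ) * K (g.val n x) := by
    apply lintegral_congr_ae
    have hnull : volume ((E : Set ℂ)) = 0 := E.finite_toSet.measure_zero _
    have hae : ∀ᵐ z : ℂ, z ∉ (E : Set ℂ) := measure_eq_zero_iff_ae_notMem.1 hnull
    filter_upwards [hae] with z hz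
    obtain ⟨b1, _, b3⟩ := hE z (by simpa using hz)
    have hsum : ∀ f : ℂ → ℝ≥0∞, ∑ x ∈ ((g.it n).1 - C z * (g.it n).2).roots.toFinset, f x =
        (((g.it n).1 - C z * (g.it n).2).roots.map f).sum := by
      intro f
      change ((((g.it n).1 - C z * (g.it n).2).roots.toFinset).val.map f).sum = _
      rw [Multiset.toFinset_val, b1.dedup]
    rw [nfac_TT, hsum, ← Multiset.sum_map_mul_right]
    apply congrArg Multiset.sum
    refine Multiset.map_congr rfl fun x hx => ?_
    have hQ := (b3 x hx).1
    have hr : ((g.it n).1 - C z * (g.it n).2).eval x = 0 := (Polynomial.mem_roots'.1 hx).2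
    have hv : g.val n x = z := by
      unfold RatMap.val
      rw [Polynomial.eval_sub, Polynomial.eval_mul, Polynomial.eval_C, sub_eq_zero] at hr
      rw [hr, mul_div_assoc, div_self hQ, mul_one]
    rw [hv]
  have hpos : 0 < (g.it n).1.natDegree ∨ 0 < (g.it n).2.natDegree := by
    rcases i3 with h | h
    · left; omega
    · right; omega
  rw [a1, h3 _ _ i4 hpos _ hH]
  apply lintegral_congr_ae
  -- the zeros of the derivative
  let Z : Set ℂ := ((g.it n).2.roots.toFinset : Set ℂ) ∪
    ⋃ z ∈ (E : Set ℂ), (((g.it n).1 - C z * (g.it n).2).roots.toFinset : Set ℂ)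
  have hZ : Z.Finite := (Finset.finite_toSet _).union
    (E.finite_toSet.biUnion fun z _ => Finset.finite_toSet _)
  have hae : ∀ᵐ x : ℂ, x ∉ Z := measure_eq_zero_iff_ae_notMem.1 (hZ.measure_zero _)
  filter_upwards [hae] with x hx
  by_cases hQ0 : (g.it n).2 = 0
  · -- then `P` is a unit and has degree zero
    exfalso
    rw [hQ0] at i4 i3
    have hu : IsUnit (g.it n).1 := isCoprime_zero_right.1 i4
    have := Polynomial.natDegree_eq_zero_of_isUnit hu
    simp only [Polynomial.natDegree_zero] at i3
    omega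
  · have hQ : (g.it n).2.eval x ≠ 0 := by
      intro h
      apply hx
      left
      simp only [Finset.mem_coe, Multiset.mem_toFinset]
      exact (Polynomial.mem_roots hQ0).2 h
    have hder : g.der n x ≠ 0 := by
      intro h
      have hne := sub_ne_zero' hD i4 i3 (g.val n x)
      have hroot : ((g.it n).1 - C (g.val n x) * (g.it n).2).eval x = 0 := by
        rw [Polynomial.eval_sub, Polynomial.eval_mul, Polynomial.eval_C, sub_eq_zero]
        unfold RatMap.val
        rw [div_mul_cancel₀ _ hQ]
      have hmem : x ∈ ((g.it n).1 - C (g.val n x) * (g.it n).2).roots :=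
        (Polynomial.mem_roots hne).2 hroot
      by_cases hzE : g.val n x ∈ E
      · apply hx
        right
        simp only [Set.mem_iUnion, Finset.mem_coe, Multiset.mem_toFinset]
        exact ⟨g.val n x, hzE, hmem⟩
      · exact ((hE _ hzE).2.2 x hmem).2 h
    have hd' : ‖g.der n x‖ₑ * ‖g.der n x‖ₑ ≠ 0 := by
      simp [hder]
    have hd'' : ‖g.der n x‖ₑ * ‖g.der n x‖ₑ ≠ ⊤ := ENNReal.mul_ne_top enorm_ne_top enorm_ne_top
    have e0 : ‖deriv (fun y => eval y (g.it n).1 / eval y (g.it n).2) x‖ₑ ^ 2 =
        ‖g.der n x‖ₑ * ‖g.der n x‖ₑ := by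
      rw [sq]
      rfl
    rw [e0, mul_right_comm, ENNReal.div_mul_cancel hd' hd'']

theorem many {ι : Type} [Fintype ι] [DecidableEq ι] (N ρ : ι → ℂ → ℝ≥0∞) (v : ι → ℂ → ℂ)
    (hN : ∀ i, Measurable (N i)) (hρ : ∀ i, Measurable (ρ i)) (hv : ∀ i, Measurable (v i))
    (h1 : ∀ i (K : ℂ → ℝ≥0∞), Measurable K → ∫⁻ z, N i z * K z = ∫⁻ x, ρ i x * K (v i x))
    (H : (ι → ℂ) → ℝ≥0∞) (hH : Measurable H) (s : Finset ι) (x : ι → ℂ) :
    (∫⋯∫⁻_s, (fun y : ι → ℂ => (∏ i ∈ s, N i (y i)) * H y) ∂fun _ => (volume : Measure ℂ)) x =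
      (∫⋯∫⁻_s, (fun y : ι → ℂ => (∏ i ∈ s, ρ i (y i)) *
        H (fun i => if i ∈ s then v i (y i) else y i)) ∂fun _ => (volume : Measure ℂ)) x := by
  induction s using Finset.induction generalizing x with
  | empty => simp
  | insert j s hj ih =>
    have mN : ∀ t : Finset ι, Measurable fun y : ι → ℂ => (∏ i ∈ t, N i (y i)) * H y := fun t =>
      (Finset.measurable_fun_prod _ fun i _ => (hN i).comp (measurable_pi_apply i)).mul hH
    have mv : ∀ t : Finset ι, Measurable fun y : ι → ℂ =>
        (fun i => if i ∈ t then v i (y i) else y i) := by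
      intro t
      refine measurable_pi_lambda _ fun i => ?_
      by_cases hi : i ∈ t
      · simp only [hi, if_true]
        exact (hv i).comp (measurable_pi_apply i)
      · simp only [hi, if_false]
        exact measurable_pi_apply i
    have mρ : ∀ t : Finset ι, Measurable fun y : ι → ℂ => (∏ i ∈ t, ρ i (y i)) *
        H (fun i => if i ∈ t then v i (y i) else y i) := fun t =>
      (Finset.measurable_fun_prod _ fun i _ => (hρ i).comp (measurable_pi_apply i)).mul
        (hH.comp (mv t))
    rw [lmarginal_insert _ (mN _) hj, lmarginal_insert _ (mρ _) hj]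
    have e1 : ∀ t : ℂ, (∫⋯∫⁻_s, (fun y : ι → ℂ => (∏ i ∈ insert j s, N i (y i)) * H y)
        ∂fun _ => (volume : Measure ℂ)) (Function.update x j t) =
        N j t * (∫⋯∫⁻_s, (fun y : ι → ℂ => (∏ i ∈ s, N i (y i)) * H y)
          ∂fun _ => (volume : Measure ℂ)) (Function.update x j t) := by
      intro t
      unfold lmarginal
      rw [← lintegral_const_mul]
      · refine lintegral_congr fun y => ?_
        have hu : Function.updateFinset (Function.update x j t) s y j = t := by
          unfold Function.updateFinset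
          rw [dif_neg hj, Function.update_self]
        beta_reduce
        rw [Finset.prod_insert hj, hu, mul_assoc]
      · exact (mN s).comp measurable_updateFinset
    have e2 : ∀ t : ℂ, (∫⋯∫⁻_s, (fun y : ι → ℂ => (∏ i ∈ insert j s, ρ i (y i)) *
        H (fun i => if i ∈ insert j s then v i (y i) else y i))
          ∂fun _ => (volume : Measure ℂ)) (Function.update x j t) =
        ρ j t * (∫⋯∫⁻_s, (fun y : ι → ℂ => (∏ i ∈ s, ρ i (y i)) *
          H (fun i => if i ∈ s then v i (y i) else y i))
            ∂fun _ => (volume : Measure ℂ)) (Function.update x j (v j t)) := by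
      intro t
      unfold lmarginal
      rw [← lintegral_const_mul]
      · refine lintegral_congr fun y => ?_
        have hu : Function.updateFinset (Function.update x j t) s y j = t := by
          unfold Function.updateFinset
          rw [dif_neg hj, Function.update_self]
        have hp : ∏ i ∈ s, ρ i (Function.updateFinset (Function.update x j t) s y i) =
            ∏ i ∈ s, ρ i (Function.updateFinset (Function.update x j (v j t)) s y i) := by
          refine Finset.prod_congr rfl fun i hi => ?_
          unfold Function.updateFinset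
          rw [dif_pos hi, dif_pos hi]
        have hH' : (fun i => if i ∈ insert j s then
              v i (Function.updateFinset (Function.update x j t) s y i)
              else Function.updateFinset (Function.update x j t) s y i) =
            fun i => if i ∈ s then v i (Function.updateFinset (Function.update x j (v j t)) s y i)
              else Function.updateFinset (Function.update x j (v j t)) s y i := by
          funext i
          by_cases hi : i ∈ s
          · rw [if_pos (Finset.mem_insert_of_mem hi), if_pos hi]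
            unfold Function.updateFinset
            rw [dif_pos hi, dif_pos hi]
          · by_cases hij : i = j
            · subst hij
              rw [if_pos (Finset.mem_insert_self _ _), if_neg hi, hu]
              unfold Function.updateFinset
              rw [dif_neg hi, Function.update_self]
            · have hni : i ∉ insert j s := by
                rw [Finset.mem_insert]
                exact fun h => h.elim hij hi
              rw [if_neg hni, if_neg hi]
              unfold Function.updateFinset
              rw [dif_neg hi, dif_neg hi, Function.update_of_ne hij, Function.update_of_ne hij]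
        beta_reduce
        rw [Finset.prod_insert hj, hu, hp, hH', mul_assoc]
      · exact (mρ s).comp measurable_updateFinset
    simp_rw [e1, e2]
    have hK : Measurable fun t : ℂ => (∫⋯∫⁻_s, (fun y : ι → ℂ => (∏ i ∈ s, N i (y i)) * H y)
          ∂fun _ => (volume : Measure ℂ)) (Function.update x j t) :=
      (Measurable.lmarginal _ (mN s)).comp (measurable_update x)
    rw [h1 j _ hK]
    refine lintegral_congr fun t => ?_
    rw [ih]

theorem many_univ {ι : Type} [Fintype ι] [DecidableEq ι] (N ρ : ι → ℂ → ℝ≥0∞) (v : ι → ℂ → ℂ)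
    (hN : ∀ i, Measurable (N i)) (hρ : ∀ i, Measurable (ρ i)) (hv : ∀ i, Measurable (v i))
    (h1 : ∀ i (K : ℂ → ℝ≥0∞), Measurable K → ∫⁻ z, N i z * K z = ∫⁻ x, ρ i x * K (v i x))
    (H : (ι → ℂ) → ℝ≥0∞) (hH : Measurable H) :
    ∫⁻ y : ι → ℂ, (∏ i, N i (y i)) * H y =
      ∫⁻ x : ι → ℂ, (∏ i, ρ i (x i)) * H (fun i => v i (x i)) := by
  have h := many N ρ v hN hρ hv h1 H hH Finset.univ (fun _ => 0)
  rw [lmarginal_univ, lmarginal_univ] at h
  simp only [Finset.mem_univ, if_true] at h
  exact h

end KMG

open KMG in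
theorem pf_KMG (h1 : T_IT) (h2 : T_SIM) (h3 : T_ARE) (h4 : T_MEA) : T_KMG := by
  intro k m d hd g S I n ρ F hρ hF hdep
  classical
  have hm : Measurable fun z : Fin k → ℂ => ENNReal.ofReal (S.h z I I).re :=
    (Complex.measurable_re.comp (S.meas I I)).ennreal_ofReal
  let π : (Fin k → ℂ) → ({j // j ∈ I.1} → ℂ) := fun z j => z j.1
  have hπ : Measurable π := measurable_pi_lambda _ fun j => measurable_pi_apply _
  let exd : ({j // j ∈ I.1} → ℂ) → (Fin k → ℂ) := fun y l => if h : l ∈ I.1 then y ⟨l, h⟩ else 0
  have hexd : Measurable exd := by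
    refine measurable_pi_lambda _ fun l => ?_
    by_cases h : l ∈ I.1
    · have : (fun y : {j // j ∈ I.1} → ℂ => exd y l) = fun y => y ⟨l, h⟩ := by
        funext y
        simp only [exd, h, dif_pos]
      rw [this]
      exact measurable_pi_apply _
    · have : (fun y : {j // j ∈ I.1} → ℂ => exd y l) = fun _ => 0 := by
        funext y
        simp only [exd, h, dif_neg, not_false_eq_true]
      rw [this]
      exact measurable_const
  have hN : ∀ l, Measurable (nfac (g l) n True True (ρ l)) := by
    intro l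
    obtain ⟨i1, i2, i3, i4, _⟩ := h1 d (by omega) (g l) n
    have hD : 1 ≤ d ^ n := Nat.one_le_pow _ _ (by omega)
    have hpos : 0 < ((g l).it n).1.natDegree ∨ 0 < ((g l).it n).2.natDegree := by
      rcases i3 with h | h
      · left; omega
      · right; omega
    have := (h4 _ _ i4 hpos).1 _ (meas_H (g l) n (ρ l) (hρ l))
    have e : nfac (g l) n True True (ρ l) = fun z =>
        ((((g l).it n).1 - C z * ((g l).it n).2).roots.map fun x =>
          ρ l x / (‖(g l).der n x‖ₑ * ‖(g l).der n x‖ₑ)).sum := by
      funext z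
      exact nfac_TT (g l) n (ρ l) z
    rw [e]
    exact this
  let f : ({j // j ∈ I.1} → ℂ) → ℝ≥0∞ := fun y =>
    (∏ j : {j // j ∈ I.1}, nfac (g j.1) n True True (ρ j.1) (y j)) * F (exd y)
  have hf : Measurable f :=
    (Finset.measurable_fun_prod _ fun j _ => (hN j.1).comp (measurable_pi_apply j)).mul
      (hF.comp hexd)
  have e1 : ∫⁻ z, (∏ l ∈ I.1, nfac (g l) n True True (ρ l) (z l)) * F z *
        ENNReal.ofReal (S.h z I I).re ∂S.σ
      = ∫⁻ y, f y ∂((S.σ.withDensity fun z => ENNReal.ofReal (S.h z I I).re).map π) := by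
    rw [lintegral_map hf hπ]
    refine Eq.trans ?_ (lintegral_withDensity_eq_lintegral_mul _ hm (hf.comp hπ)).symm
    refine lintegral_congr fun z => ?_
    simp only [Pi.mul_apply]
    rw [mul_comm]
    congr 1
    have hz : F z = F (exd (π z)) := by
      apply hdep
      intro l hl
      simp only [exd, π, hl, dif_pos]
    have hp : ∏ l ∈ I.1, nfac (g l) n True True (ρ l) (z l) =
        ∏ j : {j // j ∈ I.1}, nfac (g j.1) n True True (ρ j.1) (π z j) :=
      (Finset.prod_coe_sort I.1 (fun j => nfac (g j) n True True (ρ j) (z j))).symm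
    rw [hz, hp]
    rfl
  rw [e1, S.marg I, lintegral_smul_measure, smul_eq_mul]
  congr 1
  have e2 := many_univ (fun j : {j // j ∈ I.1} => nfac (g j.1) n True True (ρ j.1))
    (fun j : {j // j ∈ I.1} => ρ j.1) (fun j : {j // j ∈ I.1} => (g j.1).val n)
    (fun j => hN j.1) (fun j => hρ j.1) (fun j => meas_val (g j.1) n)
    (fun j K hK => one_var h1 h2 h3 hd (g j.1) n (ρ j.1) K (hρ j.1) hK) (fun y => F (exd y))
    (hF.comp hexd)
  exact e2

end Pool.Agent.H82.UDB
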